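import Pool.Agent.W433.HA.Stm

/-!
HA-FIX (helper237), project HA (helper433).
-/

set_option autoImplicit false

namespace H675HL.HA.W237

variable {Q X V : Type} [AL Q] [AL X] [AddCommGroup V]

theorem E_pi_one (E : Ext0 Q X V) : E.pi 1 = 1 := by
  have h := E.pi_mul 1 1
  rw [AL.one_mul'] at h
  apply (AL.bijL (E.pi 1)).1
  show E.pi 1 * E.pi 1 = E.pi 1 * 1
  rw [← h, AL.mul_one']

theorem E_io_zero (E : Ext0 Q X V) : E.io 0 = 1 := by
  have h := E.io_add 0 0
  rw [add_zero] at h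
  apply (AL.bijL (E.io 0)).1
  show E.io 0 * E.io 0 = E.io 0 * 1
  rw [← h, AL.mul_one']

theorem E_pi_io (E : Ext0 Q X V) (v : V) : E.pi (E.io v) = 1 := (E.ker _).2 ⟨v, rfl⟩

theorem aut_one' {g : Equiv.Perm Q} (hg : IsAut g) : g 1 = 1 := by
  have h := hg 1 1
  rw [AL.one_mul'] at h
  apply (AL.bijL (g 1)).1
  show g 1 * g 1 = g 1 * 1
  rw [← h, AL.mul_one']

/-- points in the fibre -/
theorem E_fibre (E : Ext0 Q X V) {x y : Q} (h : E.pi y = E.pi x) : ∃ v, x * E.io v = y := by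
  obtain ⟨m, hm⟩ := (AL.bijL x).2 y
  have hm' : x * m = y := hm
  have h1 : E.pi m = 1 := by
    apply (AL.bijL (E.pi x)).1
    show E.pi x * E.pi m = E.pi x * 1
    rw [← E.pi_mul, hm', h, AL.mul_one']
  obtain ⟨v, rfl⟩ := (E.ker m).1 h1
  exact ⟨v, hm'⟩

theorem E_pi_fib (E : Ext0 Q X V) (x : Q) (v : V) : E.pi (x * E.io v) = E.pi x := by
  rw [E.pi_mul, E_pi_io, AL.mul_one']

theorem E_card_fibre (E : Ext0 Q X V) (x : Q) :
    Nat.card {y : Q // E.pi y = E.pi x} = Nat.card V := by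
  symm
  refine Nat.card_congr (Equiv.ofBijective
    (fun v : V => (⟨x * E.io v, E_pi_fib E x v⟩ : {y : Q // E.pi y = E.pi x})) ⟨?_, ?_⟩)
  · intro a b h
    exact E.io_inj ((AL.bijL x).1 (congrArg Subtype.val h))
  · rintro ⟨y, hy⟩
    obtain ⟨v, hv⟩ := E_fibre E hy
    exact ⟨v, Subtype.ext hv⟩

/-- the fixed points in `V` -/
def fixV (E : Ext0 Q X V) {g : Equiv.Perm Q} (hg : IsAut g) : AddSubgroup V where
  carrier := {v | g (E.io v) = E.io v}
  add_mem' := by
    intro a b ha hb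
    show g (E.io (a + b)) = E.io (a + b)
    rw [E.io_add, hg, show g (E.io a) = E.io a from ha, show g (E.io b) = E.io b from hb]
  zero_mem' := by
    show g (E.io 0) = E.io 0
    rw [E_io_zero, aut_one' hg]
  neg_mem' := by
    intro a ha
    show g (E.io (-a)) = E.io (-a)
    apply (AL.bijR (E.io a)).1
    show g (E.io (-a)) * E.io a = E.io (-a) * E.io a
    rw [← E.io_add, neg_add_cancel, E_io_zero]
    conv_lhs => rw [← show g (E.io a) = E.io a from ha]
    rw [← hg, ← E.io_add, neg_add_cancel, E_io_zero, aut_one' hg]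

theorem E_exists_fix [Finite Q] (E : Ext0 Q X V) {p q n k : ℕ} (hp : p.Prime) (hq : q.Prime)
    (hqp : q ≠ p) (hcard : Nat.card V = p ^ n) (g : Equiv.Perm Q)
    (hfg : ∀ x, E.pi (g x) = E.pi x) (hgk : g ^ q ^ k = 1) (x : Q) :
    ∃ y : Q, E.pi y = E.pi x ∧ g y = y := by
  classical
  have : Fact q.Prime := ⟨hq⟩
  have : Fintype {y : Q // E.pi y = E.pi x} := Fintype.ofFinite _
  have hsub : ∀ y, E.pi (g y) = E.pi x ↔ E.pi y = E.pi x := fun y => by rw [hfg]
  let σ : Equiv.Perm {y : Q // E.pi y = E.pi x} := g.subtypePerm hsub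
  have hσ : σ ^ q ^ k = 1 := by
    rw [Equiv.Perm.subtypePerm_pow]
    ext y
    simp [hgk]
  have hnd : ¬ q ∣ Fintype.card {y : Q // E.pi y = E.pi x} := by
    rw [← Nat.card_eq_fintype_card, E_card_fibre E x, hcard]
    intro hdiv
    exact hqp ((Nat.prime_dvd_prime_iff_eq hq hp).1 (hq.dvd_of_dvd_pow hdiv))
  obtain ⟨y, hy⟩ := Equiv.Perm.exists_fixed_point_of_prime hnd hσ
  exact ⟨y.1, y.2, congrArg Subtype.val hy⟩

theorem tFix : T_Fix := by
  intro Q X V _ _ _ _ E p q n k hp hq hqp hcard g hg hfg hgk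
  refine ⟨⟨aut_one' hg, ?_⟩, ?_⟩
  · intro a ha b hb
    show g (a * b) = a * b
    rw [hg, show g a = a from ha, show g b = b from hb]
  · have hdvd : Nat.card (fixV E hg) ∣ Nat.card V := AddSubgroup.card_addSubgroup_dvd_card _
    rw [hcard] at hdvd
    obtain ⟨i, hi, hAi⟩ := (Nat.dvd_prime_pow hp).1 hdvd
    have hQ : Nat.card Q = Nat.card (Set.range E.pi) * p ^ n := by
      refine FixAux.card_of_fibres E.pi (p ^ n) fun a => ?_
      rw [E_card_fibre E a, hcard]
    have hS : Nat.card {y : Q | g y = y} =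
        Nat.card (Set.range fun y : {y : Q | g y = y} => E.pi y.1) * p ^ i := by
      refine FixAux.card_of_fibres (fun y : {y : Q | g y = y} => E.pi y.1) (p ^ i) fun a => ?_
      rw [← hAi]
      symm
      have ha : g a.1 = a.1 := a.2
      refine Nat.card_congr (Equiv.ofBijective
        (fun m : fixV E hg =>
          (⟨⟨a.1 * E.io m.1, by
              show g (a.1 * E.io m.1) = a.1 * E.io m.1
              rw [hg, ha, show g (E.io m.1) = E.io m.1 from m.2]⟩, E_pi_fib E a.1 m.1⟩ :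
            {b : {y : Q | g y = y} // E.pi b.1 = E.pi a.1})) ⟨?_, ?_⟩)
      · intro m m' h
        have h2 : a.1 * E.io m.1 = a.1 * E.io m'.1 := congrArg (fun z => z.1.1) h
        exact Subtype.ext (E.io_inj ((AL.bijL a.1).1 h2))
      · rintro ⟨⟨y, hy⟩, hy2⟩
        have hy' : g y = y := hy
        obtain ⟨v, hv⟩ := E_fibre E (x := a.1) (y := y) hy2
        have hgm : g (E.io v) = E.io v := by
          apply (AL.bijL a.1).1
          show a.1 * g (E.io v) = a.1 * E.io v
          have h4 := hg a.1 (E.io v)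
          rw [hv, hy', ha] at h4
          rw [← h4, hv]
        exact ⟨⟨v, hgm⟩, Subtype.ext (Subtype.ext hv)⟩
    have hrange : (Set.range fun y : {y : Q | g y = y} => E.pi y.1) = Set.range E.pi := by
      ext r
      constructor
      · rintro ⟨y, rfl⟩
        exact ⟨y.1, rfl⟩
      · rintro ⟨x, rfl⟩
        obtain ⟨y, hy1, hy2⟩ := E_exists_fix E hp hq hqp hcard g hfg hgk x
        exact ⟨⟨y, hy2⟩, hy1⟩
    rw [hrange] at hS
    refine ⟨n - i, ?_⟩
    rw [hS, hQ, mul_assoc, ← pow_add, Nat.add_sub_cancel' hi]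

end H675HL.HA.W237
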