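import Pool.Agent.W433.HA.Stm

/-!
Lagrange (HA-LAG, helper237), project HA (helper433).
-/

set_option autoImplicit false

namespace H675HL.HA.W237

theorem c_one {Q : Type} [AL Q] {r : ℕ} {c : Q → ZMod r} (hc : ∀ x y, c (x * y) = c x + c y) :
    c 1 = 0 := by
  have h := hc 1 1
  rw [AL.one_mul'] at h
  exact left_eq_add.1 h

theorem card_range {Q : Type} [AL Q] [Finite Q] {r : ℕ} (c : Q → ZMod r)
    (hc : ∀ x y, c (x * y) = c x + c y) :
    Nat.card Q = Nat.card (Set.range c) * Nat.card {x : Q // c x = 0} := by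
  refine FixAux.card_of_fibres c _ (fun a => ?_)
  symm
  refine Nat.card_congr (Equiv.ofBijective
    (fun m : {x : Q // c x = 0} => (⟨a * m.1, by rw [hc, m.2, add_zero]⟩ : {b : Q // c b = c a}))
    ⟨?_, ?_⟩)
  · intro x y h
    exact Subtype.ext ((AL.bijL a).1 (congrArg Subtype.val h))
  · rintro ⟨y, hy⟩
    obtain ⟨m, hm⟩ := (AL.bijL a).2 y
    have hm' : a * m = y := hm
    refine ⟨⟨m, ?_⟩, Subtype.ext hm'⟩
    have h2 : c a + c m = c a := by rw [← hc, hm', hy]
    exact add_eq_left.1 h2

/-- the range as a subgroup -/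
def rg {Q : Type} [AL Q] {r : ℕ} (c : Q → ZMod r) (hc : ∀ x y, c (x * y) = c x + c y) :
    AddSubgroup (ZMod r) where
  carrier := Set.range c
  add_mem' := by
    rintro _ _ ⟨x, rfl⟩ ⟨y, rfl⟩
    exact ⟨x * y, hc x y⟩
  zero_mem' := ⟨1, c_one hc⟩
  neg_mem' := by
    rintro _ ⟨x, rfl⟩
    obtain ⟨y, hy⟩ := (AL.bijR x).2 1
    have hy' : y * x = 1 := hy
    refine ⟨y, ?_⟩
    have h := hc y x
    rw [hy', c_one hc] at h
    exact eq_neg_of_add_eq_zero_left h.symm

theorem tLag : T_Sub → T_Top → T_Lag := by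
  intro hSub hTop
  suffices h : ∀ n : ℕ, ∀ (Q : Type) [AL Q] [Finite Q], Nat.card Q = n → Sol Q →
      ∀ H : Set Q, H675HL.Sub H → Nat.card H ∣ Nat.card Q from
    fun Q _ _ hG H hH => h (Nat.card Q) Q rfl hG H hH
  intro n
  induction n using Nat.strong_induction_on with
  | _ n ih =>
    intro Q _ _ hn hG H hH
    by_cases hne : ∃ x : Q, x ≠ 1
    swap
    · have hall : ∀ x : Q, x = 1 := by
        intro x
        by_contra hx
        exact hne ⟨x, hx⟩
      have hHu : H = Set.univ := by
        ext x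
        rw [hall x]
        exact ⟨fun _ => trivial, fun _ => hH.1⟩
      rw [hHu, Nat.card_univ]
    obtain ⟨r, c, hr, hc, x0, hx0⟩ := hTop Q hG hne
    let N : Set Q := {x | c x = 0}
    have hN : H675HL.Sub N := by
      refine ⟨c_one hc, ?_⟩
      intro a ha b hb
      show c (a * b) = 0
      rw [hc, show c a = 0 from ha, show c b = 0 from hb, add_zero]
    have hNne : N ≠ Set.univ := by
      intro h
      have : x0 ∈ N := by rw [h]; trivial
      exact hx0 this
    have hNlt : Nat.card N < n := by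
      have h1 := Set.ncard_lt_ncard (Set.ssubset_univ_iff.2 hNne) (Set.toFinite _)
      rw [Set.ncard_univ, hn] at h1
      exact h1
    -- the subloop `H ∩ N` of `N`
    have h1 : Nat.card {x : Q // x ∈ H ∧ c x = 0} ∣ Nat.card N := by
      letI iN : AL N := H99.subAL N hN
      have hsol : Sol N := hSub Q N hN hG
      have hs : H675HL.Sub {x : N | x.1 ∈ H} := ⟨hH.1, fun a ha b hb => hH.2 _ ha _ hb⟩
      have h2 := ih (Nat.card N) hNlt N rfl hsol {x : N | x.1 ∈ H} hs
      refine dvd_trans (dvd_of_eq ?_) h2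
      exact Nat.card_congr
        { toFun := fun x => ⟨⟨x.1, x.2.2⟩, x.2.1⟩
          invFun := fun x => ⟨x.1.1, x.2, x.1.2⟩
          left_inv := fun x => rfl
          right_inv := fun x => rfl }
    have h2 := card_range c hc
    have h3 : Nat.card H = Nat.card (Set.range (fun x : H => c x.1)) *
        Nat.card {x : Q // x ∈ H ∧ c x = 0} ∧
        Nat.card (Set.range (fun x : H => c x.1)) ∣ Nat.card (Set.range c) := by
      letI iH : AL H := H99.subAL H hH
      have hcH : ∀ x y : H, c (x * y : H).1 = c x.1 + c y.1 := fun x y => hc x.1 y.1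
      have h4 := card_range (fun x : H => c x.1) hcH
      constructor
      · rw [h4]
        congr 1
        exact Nat.card_congr
          { toFun := fun x => ⟨x.1.1, x.1.2, x.2⟩
            invFun := fun x => ⟨⟨x.1, x.2.1⟩, x.2.2⟩
            left_inv := fun x => rfl
            right_inv := fun x => rfl }
      · refine AddSubgroup.card_dvd_of_le (H := rg (fun x : H => c x.1) hcH) (K := rg c hc) ?_
        rintro _ ⟨x, rfl⟩
        exact ⟨x.1, rfl⟩
    rw [h2, h3.1]
    exact mul_dvd_mul h3.2 h1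

end H675HL.HA.W237
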