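import Pool.Agent.W433.HA.Stm

/-!
Assembly of the induction (HA-MAIN, helper237) for project HA (helper433).
-/

set_option autoImplicit false

namespace H675HL.HA.W237

open H675HL.Quo

theorem main_lemma {Q : Type} [AL Q] [Finite Q] (hSub : T_HSub) (hG : Sol Q) (P : Set ℕ)
    (hIH : IHS (Nat.card Q) P) (S : Set Q) (hS : H675HL.Sub S) (hSu : S ≠ Set.univ) (k : ℕ)
    (hk : Nat.card S * k = Nat.card Q) (hkP : ∀ p : ℕ, p.Prime → p ∣ k → p ∉ P) : Hall Q P := by
  obtain ⟨H, hHS, hH, k', h1, h2, h3⟩ := hSub Q S P hG hS hSu hIH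
  refine ⟨H, Set.subset_univ _, hH, k' * k, ?_, h2, ?_⟩
  · rw [← mul_assoc, h1, hk, Nat.card_univ]
  · intro p hp hd
    rcases (Nat.Prime.dvd_mul hp).1 hd with h | h
    · exact h3 p hp h
    · exact hkP p hp h

theorem normal_univ {Q : Type} [AL Q] : Normal (Set.univ : Set Q) := by
  refine ⟨⟨trivial, fun _ _ _ _ => trivial⟩, fun x y m _ => ⟨?_, ?_, ?_⟩⟩
  · obtain ⟨m', hm'⟩ := (AL.bijR x).2 (x * m)
    exact ⟨m', trivial, hm'.symm⟩
  · obtain ⟨m', hm'⟩ := (AL.bijR (x * y)).2 ((m * x) * y)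
    exact ⟨m', trivial, hm'.symm⟩
  · obtain ⟨m', hm'⟩ := (AL.bijL (y * x)).2 (y * (x * m))
    exact ⟨m', trivial, hm'.symm⟩

theorem card_elem {V : Type} [AddCommGroup V] [Finite V] {p : ℕ} (hp : p.Prime)
    (hv : ∀ v : V, p • v = 0) : ∃ n : ℕ, Nat.card V = p ^ n := by
  haveI : Fact p.Prime := ⟨hp⟩
  have h : IsPGroup p (Multiplicative V) := by
    intro g
    refine ⟨1, ?_⟩
    rw [pow_one]
    exact congrArg Multiplicative.ofAdd (hv (Multiplicative.toAdd g))
  obtain ⟨n, hn⟩ := (IsPGroup.iff_card (G := Multiplicative V)).1 h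
  exact ⟨n, hn⟩

theorem tMain : T_Main := by
  intro hSub hQuo hTop hLag hMin hPre hHSub hFix hTriv hCore
  suffices h : ∀ n : ℕ, ∀ (Q : Type) [AL Q] [Finite Q], Nat.card Q = n → Sol Q →
      ∀ P : Set ℕ, Hall Q P from fun Q _ _ hG P => h (Nat.card Q) Q rfl hG P
  intro n
  induction n using Nat.strong_induction_on with
  | _ n ih =>
    intro Q _ _ hn hG P
    have hIH : IHS (Nat.card Q) P := by
      intro Q' _ _ hlt hG'
      exact ih (Nat.card Q') (hn ▸ hlt) Q' rfl hG' P
    by_cases hne : ∃ x : Q, x ≠ 1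
    swap
    · -- the trivial loop
      have hall : ∀ x : Q, x = 1 := by
        intro x
        by_contra hx
        exact hne ⟨x, hx⟩
      have hc1 : Nat.card Q = 1 := by
        rw [Nat.card_eq_one_iff_unique]
        exact ⟨⟨fun a b => (hall a).trans (hall b).symm⟩, ⟨1⟩⟩
      refine ⟨Set.univ, subset_rfl, ⟨trivial, fun _ _ _ _ => trivial⟩, 1, by rw [mul_one], ?_, ?_⟩
      · intro p hp hd
        rw [Nat.card_univ, hc1] at hd
        exact absurd (Nat.dvd_one.1 hd) hp.one_lt.ne'
      · intro p hp hd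
        exact absurd (Nat.dvd_one.1 hd) hp.one_lt.ne'
    have L := main_lemma hHSub hG P hIH
    -- a minimal normal subloop
    obtain ⟨M, ⟨hMn, hM1⟩, hMmin⟩ : ∃ M : Set Q, (Normal M ∧ M ≠ {1}) ∧
        ∀ M' : Set Q, (Normal M' ∧ M' ≠ {1}) → Nat.card M ≤ Nat.card M' := by
      classical
      have huni : (Set.univ : Set Q) ≠ {1} := by
        intro h
        obtain ⟨x, hx⟩ := hne
        have : x ∈ (Set.univ : Set Q) := trivial
        rw [h] at this
        exact hx this
      have hex : ∃ c : ℕ, ∃ M : Set Q, (Normal M ∧ M ≠ {1}) ∧ Nat.card M = c :=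
        ⟨_, Set.univ, ⟨normal_univ, huni⟩, rfl⟩
      obtain ⟨M, hM, hMc⟩ := Nat.find_spec hex
      refine ⟨M, hM, fun M' hM' => ?_⟩
      rw [hMc]
      exact Nat.find_min' hex ⟨M', hM', rfl⟩
    have hMmin' : ∀ M' : Set Q, Normal M' → M' ⊆ M → M' = {1} ∨ M' = M := by
      intro M' hM' hsub
      by_cases h1 : M' = {1}
      · exact Or.inl h1
      · right
        have hle := hMmin M' ⟨hM', h1⟩
        rw [Nat.card_coe_set_eq, Nat.card_coe_set_eq] at hle
        exact Set.eq_of_subset_of_ncard_le hsub hle (Set.toFinite _)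
    obtain ⟨p, V, _, io, hp, hpv, hioinj, hioadd, hrange⟩ := hMin Q hG M hMn hM1 hMmin'
    haveI : Finite V := Finite.of_injective io hioinj
    obtain ⟨e, he⟩ := card_elem hp hpv
    have hMc : Nat.card M = p ^ e := by
      rw [← he, ← hrange]
      exact (Nat.card_congr (Equiv.ofInjective io hioinj)).symm
    obtain ⟨S, hS, hMS, j, k, hSc, hSk, hjP, hkP⟩ := hPre Q M P hG hMn hM1 hIH
    by_cases hpP : p ∈ P
    · refine ⟨S, Set.subset_univ _, hS, k, by rw [hSk, Nat.card_univ], ?_, hkP⟩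
      intro q hq hd
      rw [hSc, hMc] at hd
      rcases (Nat.Prime.dvd_mul hq).1 hd with h | h
      · rw [(Nat.prime_dvd_prime_iff_eq hq hp).1 (hq.dvd_of_dvd_pow h)]
        exact hpP
      · exact hjP q hq h
    by_cases hSu : S = Set.univ
    swap
    · exact L S hS hSu k hSk hkP
    have hQc : Nat.card Q = p ^ e * j := by
      rw [← hMc, ← hSc, hSu, Nat.card_univ]
    have hpj : ¬ p ∣ j := fun h => hpP (hjP p hp h)
    have hpe : 0 < p ^ e := Nat.pow_pos hp.pos
    -- the quotient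
    have hQc2 : Nat.card Q = p ^ e * Nat.card (QM hMn) := by
      have h := card_pre hMn (Set.univ : Set (QM hMn))
      rw [Set.preimage_univ, Nat.card_univ, Nat.card_univ, hMc] at h
      exact h
    have hXc : Nat.card (QM hMn) = j := Nat.eq_of_mul_eq_mul_left hpe (hQc2.symm.trans hQc)
    have hker : ∀ q : Q, pr hMn q = 1 ↔ q ∈ M := by
      intro q
      rw [← pr_one, pr_eq]
      constructor
      · intro h
        obtain ⟨m, hm, hq⟩ := rel_symm hMn h
        rw [hq, AL.mul_one']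
        exact hm
      · intro h
        exact rel_symm hMn ⟨q, h, (AL.mul_one' q).symm⟩
    let E : Ext0 Q (QM hMn) V :=
      { pi := pr hMn
        io := io
        pi_mul := pr_mul hMn
        pi_surj := pr_surj hMn
        io_add := hioadd
        io_inj := hioinj
        ker := by
          intro q
          rw [hker, ← hrange]
          rfl }
    have hEpi : E.pi = pr hMn := rfl
    have hEker : {m : Q | E.pi m = 1} = M := by
      ext q
      exact hker q
    have hmin : ∀ M' : Set Q, Normal M' → (∀ m ∈ M', E.pi m = 1) →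
        M' = {1} ∨ M' = {m : Q | E.pi m = 1} := by
      intro M' h1 h2
      rw [hEker]
      exact hMmin' M' h1 (fun m hm => (hker m).1 (h2 m hm))
    by_cases hg : ∃ (q k : ℕ) (g : Equiv.Perm Q), q.Prime ∧ q ≠ p ∧ IsAut g ∧
        (∀ x, E.pi (g x) = E.pi x) ∧ g ^ q ^ k = 1 ∧ g ≠ 1
    · obtain ⟨q, k1, g, hq, hqp, hga, hgf, hgk, hg1⟩ := hg
      obtain ⟨hF, j1, hj1⟩ := hFix Q (QM hMn) V E p q e k1 hp hq hqp he g hga hgf hgk
      refine L _ hF ?_ (p ^ j1) hj1 ?_
      · intro hu
        apply hg1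
        ext y
        have : y ∈ {y : Q | g y = y} := by rw [hu]; trivial
        exact this
      · intro r hr hd
        rw [(Nat.prime_dvd_prime_iff_eq hr hp).1 (hr.dvd_of_dvd_pow hd)]
        exact hpP
    have htriv := hTriv Q (QM hMn) V E p e hp he hmin (by
      intro q k1 g hq hqp hga hgf hgk
      by_contra hg1
      exact hg ⟨q, k1, g, hq, hqp, hga, hgf, hgk, hg1⟩)
    have hXsol : Sol (QM hMn) := hQuo Q M hMn hG
    by_cases hXne : ∃ x : QM hMn, x ≠ 1
    swap
    · -- `Q = M`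
      have hall : ∀ x : QM hMn, x = 1 := by
        intro x
        by_contra hx
        exact hXne ⟨x, hx⟩
      have hc1 : Nat.card (QM hMn) = 1 := by
        rw [Nat.card_eq_one_iff_unique]
        exact ⟨⟨fun a b => (hall a).trans (hall b).symm⟩, ⟨1⟩⟩
      refine ⟨{1}, Set.subset_univ _, ⟨rfl, ?_⟩, p ^ e, ?_, ?_, ?_⟩
      · rintro a rfl b rfl
        exact AL.one_mul' 1
      · rw [Nat.card_univ, hQc2, hc1]
        simp
      · intro q hq hd
        have : Nat.card ({1} : Set Q) = 1 := by simp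
        rw [this] at hd
        exact absurd (Nat.dvd_one.1 hd) hq.one_lt.ne'
      · intro r hr hd
        rw [(Nat.prime_dvd_prime_iff_eq hr hp).1 (hr.dvd_of_dvd_pow hd)]
        exact hpP
    obtain ⟨r, c, hr, hc, hcne⟩ := hTop (QM hMn) hXsol hXne
    have hc1 : c 1 = 0 := by
      have h := hc 1 1
      rw [AL.one_mul'] at h
      exact left_eq_add.1 h
    have hK0 : H675HL.Sub {x : QM hMn | c x = 0} := by
      refine ⟨hc1, ?_⟩
      intro a ha b hb
      show c (a * b) = 0
      rw [hc, show c a = 0 from ha, show c b = 0 from hb, add_zero]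
    have hK0c : Nat.card {x : QM hMn | c x = 0} ∣ j := by
      rw [← hXc]
      exact hLag (QM hMn) hXsol _ hK0
    have hN0 : H675HL.Sub (pr hMn ⁻¹' {x : QM hMn | c x = 0}) := by
      refine ⟨?_, ?_⟩
      · exact hK0.1
      · intro a ha b hb
        rw [Set.mem_preimage] at ha hb ⊢
        rw [pr_mul]
        exact hK0.2 _ ha _ hb
    have hN0ne : pr hMn ⁻¹' {x : QM hMn | c x = 0} ≠ Set.univ := by
      intro h
      obtain ⟨x, hx⟩ := hcne
      obtain ⟨q, hq⟩ := pr_surj hMn x
      have : q ∈ pr hMn ⁻¹' {x : QM hMn | c x = 0} := by rw [h]; trivial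
      apply hx
      rw [← hq]
      exact this
    obtain ⟨H, hHS, hH, k', hk1, hk2, hk3⟩ := hHSub Q _ P hG hN0 hN0ne hIH
    rw [card_pre hMn, hMc] at hk1
    have hHcard : Nat.card H = Nat.card {x : QM hMn | c x = 0} := by
      apply Nat.dvd_antisymm
      · have hcop : (Nat.card H).Coprime (p ^ e) := by
          apply Nat.Coprime.pow_right
          rw [Nat.coprime_comm, Nat.Prime.coprime_iff_not_dvd hp]
          exact fun h => hpP (hk2 p hp h)
        exact hcop.dvd_of_dvd_mul_left (Dvd.intro _ hk1)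
      · have hcop : (Nat.card {x : QM hMn | c x = 0}).Coprime k' := by
          apply Nat.coprime_of_dvd
          intro q hq h1 h2
          exact hk3 q hq h2 (hjP q hq (h1.trans hK0c))
        exact hcop.dvd_of_dvd_mul_right (Dvd.intro_left _ hk1.symm)
    rcases hCore Q (QM hMn) V E p r c hp hr hpv (by rw [hXc]; exact hpj)
      (by
        intro Y hY hd
        have h := hLag (QM hMn) hXsol Y hY
        rw [hXc] at h
        exact hpj (hd.trans h)) htriv hmin hc hcne
      ⟨H, hH, fun a ha => hHS ha, hHcard⟩ with ⟨T, hT, hTc⟩ | ⟨M1, hM1n, hM11, hM1c⟩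
    · refine ⟨T, Set.subset_univ _, hT, p ^ e, ?_, ?_, ?_⟩
      · rw [hTc, Nat.card_univ, hQc2, mul_comm]
      · intro q hq hd
        rw [hTc, hXc] at hd
        exact hjP q hq hd
      · intro q hq hd
        rw [(Nat.prime_dvd_prime_iff_eq hq hp).1 (hq.dvd_of_dvd_pow hd)]
        exact hpP
    · obtain ⟨S1, hS1, -, j1, k1, hS1c, hS1k, hj1P, hk1P⟩ := hPre Q M1 P hG hM1n hM11 hIH
      refine ⟨S1, Set.subset_univ _, hS1, k1, by rw [hS1k, Nat.card_univ], ?_, hk1P⟩
      intro q hq hd
      rw [hS1c] at hd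
      rcases (Nat.Prime.dvd_mul hq).1 hd with h | h
      · rw [hXc] at hM1c
        exact hjP q hq (h.trans hM1c)
      · exact hj1P q hq h

end H675HL.HA.W237
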