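import Pool.Agent.W433.HA.Stm

/-!
Minimal normal subloops are elementary abelian groups (HA-MIN, helper237), project HA (helper433).
-/

set_option autoImplicit false

namespace H675HL.HA.W237

open H675HL.CharAux

/-- the common kernel of the homomorphisms to `ZMod r` -/
def D {Q : Type} [AL Q] {M : Set Q} (hM : H675HL.Sub M) (r : ℕ) : Set Q :=
  {x | ∃ h : x ∈ M, ∀ c : M → ZMod r,
    (∀ a b : M, c ⟨a.1 * b.1, hM.2 _ a.2 _ b.2⟩ = c a + c b) → c ⟨x, h⟩ = 0}

theorem D_one {Q : Type} [AL Q] {M : Set Q} (hM : H675HL.Sub M) {r : ℕ} (c : M → ZMod r)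
    (hc : ∀ a b : M, c ⟨a.1 * b.1, hM.2 _ a.2 _ b.2⟩ = c a + c b) : c ⟨1, hM.1⟩ = 0 := by
  have h := hc ⟨1, hM.1⟩ ⟨1, hM.1⟩
  have h2 : (⟨(1 : Q) * 1, hM.2 _ hM.1 _ hM.1⟩ : M) = ⟨1, hM.1⟩ := Subtype.ext (AL.one_mul' 1)
  have h3 : c ⟨1, hM.1⟩ = c ⟨1, hM.1⟩ + c ⟨1, hM.1⟩ := by
    rw [← h]
    exact congrArg c h2.symm
  exact left_eq_add.1 h3

theorem D_sub {Q : Type} [AL Q] {M : Set Q} (hM : H675HL.Sub M) (r : ℕ) :
    H675HL.Sub (D hM r) := by
  refine ⟨⟨hM.1, fun c hc => D_one hM c hc⟩, ?_⟩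
  rintro a ⟨ha, ha'⟩ b ⟨hb, hb'⟩
  refine ⟨hM.2 a ha b hb, fun c hc => ?_⟩
  have h := hc ⟨a, ha⟩ ⟨b, hb⟩
  rw [ha' c hc, hb' c hc, add_zero] at h
  exact h

theorem D_inv {Q : Type} [AL Q] {M : Set Q} (hM : H675HL.Sub M) (r : ℕ) (g : Equiv.Perm Q)
    (hg : IsAut g) (hgM : ∀ m ∈ M, g m ∈ M) {m : Q} (hm : m ∈ D hM r) : g m ∈ D hM r := by
  obtain ⟨h1, h2⟩ := hm
  refine ⟨hgM m h1, fun c hc => ?_⟩
  refine h2 (fun x => c ⟨g x.1, hgM _ x.2⟩) (fun a b => ?_)
  have h := hc ⟨g a.1, hgM _ a.2⟩ ⟨g b.1, hgM _ b.2⟩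
  rw [← h]
  refine congrArg c (Subtype.ext ?_)
  exact hg a.1 b.1

theorem D_normal {Q : Type} [AL Q] {M : Set Q} (hM : Normal M) (r : ℕ) :
    Normal (D hM.1 r) := by
  refine ⟨D_sub hM.1 r, fun x y m hm => ⟨?_, ?_, ?_⟩⟩
  · refine ⟨gT x m, D_inv hM.1 r _ (gT_aut x) (fun u hu => ?_) hm, (gT_spec x m).symm⟩
    obtain ⟨m', hm', he⟩ := (hM.2 x y u hu).1
    have : gT x u = m' := R_inj (a := x) ((gT_spec x u).trans he)
    rw [this]
    exact hm'
  · refine ⟨gR x y m, D_inv hM.1 r _ (gR_aut x y) (fun u hu => ?_) hm, (gR_spec x y m).symm⟩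
    obtain ⟨m', hm', he⟩ := (hM.2 x y u hu).2.1
    have : gR x y u = m' := R_inj (a := x * y) ((gR_spec x y u).trans he)
    rw [this]
    exact hm'
  · refine ⟨gL x y m, D_inv hM.1 r _ (gL_aut x y) (fun u hu => ?_) hm, (gL_spec x y m).symm⟩
    obtain ⟨m', hm', he⟩ := (hM.2 x y u hu).2.2
    have : gL x y u = m' := L_inj (a := y * x) ((gL_spec x y u).trans he)
    rw [this]
    exact hm'

theorem tMin : T_Sub → T_Top → T_Min := by
  intro hSub hTop Q _ _ hSol M hN hne hmin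
  letI iAL : AL M := H99.subAL M hN.1
  have hsol : Sol M := hSub Q M hN.1 hSol
  have hnt : ∃ x : M, x ≠ 1 := by
    by_contra hcon
    push Not at hcon
    apply hne
    ext m
    rw [Set.mem_singleton_iff]
    constructor
    · intro hm
      exact congrArg Subtype.val (hcon ⟨m, hm⟩)
    · rintro rfl
      exact hN.1.1
  obtain ⟨r, c0, hr, hc0, x0, hx0⟩ := hTop M hsol hnt
  have hD1 : D hN.1 r = {1} := by
    rcases hmin (D hN.1 r) (D_normal hN r) (fun x hx => hx.1) with h | h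
    · exact h
    · exfalso
      have h1 : x0.1 ∈ D hN.1 r := by
        rw [h]
        exact x0.2
      obtain ⟨h2, h3⟩ := h1
      exact hx0 (h3 c0 (fun a b => hc0 a b))
  have key : ∀ z : M, (∀ c : M → ZMod r, (∀ a b : M, c (a * b) = c a + c b) → c z = 0) →
      z = 1 := by
    intro z hz
    have h1 : z.1 ∈ D hN.1 r := ⟨z.2, fun c hc => hz c hc⟩
    rw [hD1, Set.mem_singleton_iff] at h1
    exact Subtype.ext h1
  have hcomm : ∀ x y : M, x * y = y * x := by
    intro x y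
    obtain ⟨z, hz⟩ := (AL.bijL (y * x)).2 (x * y)
    have hz' : (y * x) * z = x * y := hz
    have h1 : z = 1 := by
      refine key z (fun c hc => ?_)
      have h := congrArg c hz'
      rw [hc, hc, hc, add_comm (c y) (c x)] at h
      exact add_eq_left.1 h
    rw [h1, AL.mul_one'] at hz'
    exact hz'.symm
  have hassoc : ∀ x y z : M, (x * y) * z = x * (y * z) := by
    intro x y z
    obtain ⟨w, hw⟩ := (AL.bijL (x * (y * z))).2 ((x * y) * z)
    have hw' : (x * (y * z)) * w = (x * y) * z := hw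
    have h1 : w = 1 := by
      refine key w (fun c hc => ?_)
      have h := congrArg c hw'
      rw [hc, hc, hc, hc, hc, add_assoc (c x) (c y) (c z)] at h
      exact add_eq_left.1 h
    rw [h1, AL.mul_one'] at hw'
    exact hw'.symm
  let iAdd : Add M := ⟨fun a b => a * b⟩
  let iZero : Zero M := ⟨1⟩
  let iNeg : Neg M := ⟨fun a => ((AL.bijR a).2 1).choose⟩
  let grp0 : AddGroup M := AddGroup.ofLeftAxioms hassoc (fun a => AL.one_mul' a)
    (fun a => ((AL.bijR a).2 1).choose_spec)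
  let grp : AddCommGroup M := { grp0 with add_comm := hcomm }
  refine ⟨r, M, grp, Subtype.val, hr, ?_, Subtype.val_injective, fun u v => rfl,
    Subtype.range_coe⟩
  intro v
  refine key _ (fun c hc => ?_)
  let C : M →+ ZMod r :=
    { toFun := c
      map_zero' := by
        have h := hc 1 1
        rw [AL.one_mul'] at h
        exact left_eq_add.1 h
      map_add' := fun a b => hc a b }
  have h := map_nsmul C r v
  have h2 : (r • C v : ZMod r) = 0 := by
    rw [nsmul_eq_mul, ZMod.natCast_self, zero_mul]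
  rw [h2] at h
  exact h

end H675HL.HA.W237
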