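import Pool.Agent.W433.HA.Stm

/-!
HA-QUO (helper237), project HA (helper433).
-/

set_option autoImplicit false

namespace H675HL.HA.W237

open H675HL.Quo

theorem tQuo : T_Quo := by
  intro Q _ _ M hM hSol
  obtain ⟨n, S, h0, hn, hS⟩ := hSol
  refine ⟨n, fun i => pr hM '' S i, ?_, ?_, ?_⟩
  · show pr hM '' S 0 = {1}
    rw [h0, Set.image_singleton]
    rfl
  · show pr hM '' S n = Set.univ
    rw [hn, Set.image_univ]
    ext x
    exact ⟨fun _ => trivial, fun _ => pr_surj hM x⟩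
  · intro i hi
    obtain ⟨h1, h2, h3, h4, h5⟩ := hS i hi
    refine ⟨Set.image_mono h1, ⟨1, h2, rfl⟩, ?_, ?_, ?_⟩
    · rintro _ ⟨a, ha, rfl⟩ _ ⟨b, hb, rfl⟩
      exact ⟨a * b, h3 _ ha _ hb, pr_mul hM a b⟩
    · rintro _ ⟨x, hx, rfl⟩ _ ⟨y, hy, rfl⟩ _ ⟨m, hm, rfl⟩
      obtain ⟨⟨m1, hm1, e1⟩, ⟨m2, hm2, e2⟩, ⟨m3, hm3, e3⟩⟩ := h4 x hx y hy m hm
      refine ⟨⟨pr hM m1, ⟨m1, hm1, rfl⟩, ?_⟩, ⟨pr hM m2, ⟨m2, hm2, rfl⟩, ?_⟩,
        ⟨pr hM m3, ⟨m3, hm3, rfl⟩, ?_⟩⟩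
      · simp only [← pr_mul]
        rw [e1]
      · simp only [← pr_mul]
        rw [e2]
      · simp only [← pr_mul]
        rw [e3]
    · rintro _ ⟨x, hx, rfl⟩ _ ⟨y, hy, rfl⟩ _ ⟨z, hz, rfl⟩
      obtain ⟨⟨m1, hm1, e1⟩, ⟨m2, hm2, e2⟩⟩ := h5 x hx y hy z hz
      refine ⟨⟨pr hM m1, ⟨m1, hm1, rfl⟩, ?_⟩, ⟨pr hM m2, ⟨m2, hm2, rfl⟩, ?_⟩⟩
      · simp only [← pr_mul]
        rw [e1]
      · simp only [← pr_mul]
        rw [e2]

theorem tPre : T_Quo → T_Pre := by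
  intro hQuo Q _ _ M P hSol hM hM1 hIH
  have hM0 : (1 : Q) ∈ M := hM.1.1
  have hgood : Sol (QM hM) := hQuo Q M hM hSol
  have hcard : Nat.card Q = Nat.card M * Nat.card (Set.univ : Set (QM hM)) := by
    rw [← card_pre hM Set.univ, Set.preimage_univ]
    exact (Nat.card_congr (Equiv.Set.univ Q)).symm
  have hcardu : Nat.card (Set.univ : Set (QM hM)) = Nat.card (QM hM) :=
    Nat.card_congr (Equiv.Set.univ _)
  have hMnt : 1 < Nat.card M := by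
    rw [Finite.one_lt_card_iff_nontrivial]
    have : ∃ m ∈ M, m ≠ 1 := by
      by_contra hcon
      push Not at hcon
      apply hM1
      ext m
      rw [Set.mem_singleton_iff]
      exact ⟨fun hm => hcon m hm, fun hm => hm ▸ hM0⟩
    obtain ⟨m, hm, hne⟩ := this
    exact ⟨⟨⟨m, hm⟩, ⟨1, hM0⟩, fun e => hne (congrArg Subtype.val e)⟩⟩
  have : Nonempty (QM hM) := ⟨1⟩
  have hpos : 0 < Nat.card (QM hM) := Nat.card_pos
  have hlt : Nat.card (QM hM) < Nat.card Q := by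
    rw [hcard, hcardu]
    nlinarith
  obtain ⟨H, -, hHs, k, hk, hk1, hk2⟩ := hIH (QM hM) hlt hgood
  refine ⟨pr hM ⁻¹' H, ⟨?_, ?_⟩, ?_, Nat.card H, k, ?_, ?_, hk1, hk2⟩
  · exact hHs.1
  · intro a ha b hb
    rw [Set.mem_preimage] at ha hb ⊢
    rw [pr_mul]
    exact hHs.2 _ ha _ hb
  · intro m hm
    rw [Set.mem_preimage]
    have e1 : pr hM m = 1 := by
      rw [← pr_one, pr_eq]
      exact rel_symm hM ⟨m, hm, (AL.mul_one' m).symm⟩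
    rw [e1]
    exact hHs.1
  · exact card_pre hM H
  · rw [card_pre hM H, hcard, ← hk, mul_assoc]

end H675HL.HA.W237
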