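import Pool.Agent.W433.HA.Stm

/-!
HA-SUB (helper237), project HA (helper433).
-/

set_option autoImplicit false

namespace H675HL.HA.W237

theorem solR_mem {Q : Type} [AL Q] [Finite Q] {H : Set Q} (hH : H675HL.Sub H) {x b y : Q}
    (hx : x ∈ H) (hb : b ∈ H) (h : b = y * x) : y ∈ H := by
  letI : AL H := H99.subAL H hH
  obtain ⟨y', hy'⟩ := (AL.bijR (⟨x, hx⟩ : H)).2 ⟨b, hb⟩
  have h1 : y'.1 * x = b := congrArg Subtype.val hy'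
  have h2 : y'.1 = y := (AL.bijR x).1 (h1.trans h)
  rw [← h2]
  exact y'.2

theorem solL_mem {Q : Type} [AL Q] [Finite Q] {H : Set Q} (hH : H675HL.Sub H) {x b y : Q}
    (hx : x ∈ H) (hb : b ∈ H) (h : b = x * y) : y ∈ H := by
  letI : AL H := H99.subAL H hH
  obtain ⟨y', hy'⟩ := (AL.bijL (⟨x, hx⟩ : H)).2 ⟨b, hb⟩
  have h1 : x * y'.1 = b := congrArg Subtype.val hy'
  have h2 : y'.1 = y := (AL.bijL x).1 (h1.trans h)
  rw [← h2]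
  exact y'.2

theorem tSub : T_Sub := by
  intro Q _ _ H hH hSol
  obtain ⟨n, S, h0, hn, hS⟩ := hSol
  letI : AL H := H99.subAL H hH
  refine ⟨n, fun i => {x : H | x.1 ∈ S i}, ?_, ?_, ?_⟩
  · ext x
    show x.1 ∈ S 0 ↔ x = 1
    rw [h0, Set.mem_singleton_iff]
    exact ⟨fun h => Subtype.ext h, fun h => congrArg Subtype.val h⟩
  · ext x
    show x.1 ∈ S n ↔ True
    rw [hn]
    exact ⟨fun _ => trivial, fun _ => trivial⟩
  · intro i hi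
    obtain ⟨h1, h2, h3, h4, h5⟩ := hS i hi
    refine ⟨fun x hx => h1 hx, h2, fun a ha b hb => h3 _ ha _ hb, ?_, ?_⟩
    · intro x hx y hy m hm
      obtain ⟨⟨m1, hm1, e1⟩, ⟨m2, hm2, e2⟩, ⟨m3, hm3, e3⟩⟩ := h4 x.1 hx y.1 hy m.1 hm
      refine ⟨⟨⟨m1, ?_⟩, hm1, Subtype.ext e1⟩, ⟨⟨m2, ?_⟩, hm2, Subtype.ext e2⟩,
        ⟨⟨m3, ?_⟩, hm3, Subtype.ext e3⟩⟩
      · exact solR_mem hH x.2 (hH.2 _ x.2 _ m.2) e1
      · exact solR_mem hH (hH.2 _ x.2 _ y.2) (hH.2 _ (hH.2 _ m.2 _ x.2) _ y.2) e2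
      · exact solL_mem hH (hH.2 _ y.2 _ x.2) (hH.2 _ y.2 _ (hH.2 _ x.2 _ m.2)) e3
    · intro x hx y hy z hz
      obtain ⟨⟨m1, hm1, e1⟩, ⟨m2, hm2, e2⟩⟩ := h5 x.1 hx y.1 hy z.1 hz
      refine ⟨⟨⟨m1, ?_⟩, hm1, Subtype.ext e1⟩, ⟨⟨m2, ?_⟩, hm2, Subtype.ext e2⟩⟩
      · exact solL_mem hH (hH.2 _ x.2 _ (hH.2 _ y.2 _ z.2))
          (hH.2 _ (hH.2 _ x.2 _ y.2) _ z.2) e1
      · exact solL_mem hH (hH.2 _ y.2 _ x.2) (hH.2 _ x.2 _ y.2) e2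

theorem tHSub : T_Sub → T_HSub := by
  intro hSub Q _ _ S P hsol hS hne hIH
  have hg : @Sol S (H99.subAL S hS) := hSub Q S hS hsol
  letI : AL S := H99.subAL S hS
  have hcard : Nat.card S < Nat.card Q := by
    have h1 := Set.ncard_lt_ncard (Set.ssubset_univ_iff.2 hne) (Set.toFinite _)
    rw [Set.ncard_univ] at h1
    exact h1
  obtain ⟨H, -, hH, k, hk, hp1, hp2⟩ := hIH S hcard hg
  have hcH : Nat.card (Subtype.val '' H : Set Q) = Nat.card H :=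
    Nat.card_image_of_injective Subtype.val_injective H
  refine ⟨Subtype.val '' H, ?_, ⟨⟨1, hH.1, rfl⟩, ?_⟩, k, ?_, ?_, hp2⟩
  · rintro _ ⟨x, -, rfl⟩
    exact x.2
  · rintro _ ⟨x, hx, rfl⟩ _ ⟨y, hy, rfl⟩
    exact ⟨x * y, hH.2 x hx y hy, rfl⟩
  · rw [hcH, hk]
    exact Nat.card_congr (Equiv.Set.univ _)
  · rw [hcH]
    exact hp1

end H675HL.HA.W237
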