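import Pool.Agent.W433.HA.Stm

/-!
HA-TOP (helper237), project HA (helper433).
-/

set_option autoImplicit false

namespace H675HL.HA.W237

open H675HL.Quo

theorem exists_hom0 (W : Type) [AddCommGroup W] (r : ℕ) [Fact r.Prime] [Module (ZMod r) W]
    {w : W} (hw : w ≠ 0) : ∃ c : W →+ ZMod r, c w ≠ 0 := by
  have key : ∃ φ : Module.Dual (ZMod r) W, φ w ≠ 0 := by
    by_contra hcon
    push Not at hcon
    exact hw ((Module.forall_dual_apply_eq_zero_iff (ZMod r) w).1 hcon)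
  obtain ⟨φ, hφ⟩ := key
  exact ⟨φ.toAddMonoidHom, hφ⟩

theorem exists_hom' (W : Type) [AddCommGroup W] (r : ℕ) [Fact r.Prime] (h : ∀ x : W, r • x = 0)
    {w : W} (hw : w ≠ 0) : ∃ c : W →+ ZMod r, c w ≠ 0 :=
  @exists_hom0 W _ r _ (AddCommGroup.zmodModule h) w hw

/-- a finite nontrivial abelian group has a nonzero homomorphism to a group of prime order -/
theorem exists_hom (G : Type) [AddCommGroup G] [Finite G] (hG : Nat.card G ≠ 1) :
    ∃ (r : ℕ) (c : G →+ ZMod r), r.Prime ∧ ∃ g, c g ≠ 0 := by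
  obtain ⟨r, hr, hrd⟩ := Nat.exists_prime_and_dvd hG
  have := Fact.mk hr
  let B : AddSubgroup G := (nsmulAddMonoidHom (α := G) r).range
  have hB : ∃ g : G, g ∉ B := by
    by_contra hcon
    push Not at hcon
    have hsurj : Function.Surjective (nsmulAddMonoidHom (α := G) r) := fun g => hcon g
    have hinj := Finite.injective_iff_surjective.2 hsurj
    obtain ⟨z, hz⟩ := exists_prime_addOrderOf_dvd_card' (G := G) r hrd
    have h1 : r • z = 0 := by
      rw [← hz]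
      exact addOrderOf_nsmul_eq_zero z
    have h2 : z = 0 := by
      apply hinj
      show r • z = r • (0 : G)
      rw [h1, nsmul_zero]
    rw [h2, addOrderOf_zero] at hz
    exact hr.one_lt.ne hz
  obtain ⟨g, hg⟩ := hB
  have hmod : ∀ x : G ⧸ B, r • x = 0 := by
    intro x
    obtain ⟨y, rfl⟩ := QuotientAddGroup.mk_surjective x
    rw [← QuotientAddGroup.mk_nsmul, QuotientAddGroup.eq_zero_iff]
    exact ⟨y, rfl⟩
  have hne : (QuotientAddGroup.mk g : G ⧸ B) ≠ 0 := by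
    rw [Ne, QuotientAddGroup.eq_zero_iff]
    exact hg
  obtain ⟨φ, hφ⟩ := exists_hom' (G ⧸ B) r hmod hne
  exact ⟨r, φ.comp (QuotientAddGroup.mk' B), hr, g, hφ⟩

theorem tTop : T_Top := by
  intro Q _ _ hSol hne
  obtain ⟨n, S, h0, hn, hS⟩ := hSol
  classical
  have hex : ∃ j, S j = Set.univ := ⟨n, hn⟩
  obtain ⟨x0, hx0⟩ := hne
  have hj0 : Nat.find hex ≠ 0 := by
    intro h
    have h1 := Nat.find_spec hex
    rw [h, h0] at h1
    have h2 : x0 ∈ (Set.univ : Set Q) := trivial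
    rw [← h1] at h2
    exact hx0 h2
  obtain ⟨i, hi⟩ := Nat.exists_eq_succ_of_ne_zero hj0
  have hi1 : S (i + 1) = Set.univ := by
    have h1 := Nat.find_spec hex
    rw [hi] at h1
    exact h1
  have hi2 : S i ≠ Set.univ := by
    apply Nat.find_min hex
    rw [hi]
    exact Nat.lt_succ_self i
  have hin : i < n := by
    have h1 := Nat.find_min' hex hn
    rw [hi] at h1
    exact h1
  obtain ⟨-, c2, c3, c4, c5⟩ := hS i hin
  have hall : ∀ x : Q, x ∈ S (i + 1) := fun x => by rw [hi1]; trivial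
  have hM : Normal (S i) :=
    ⟨⟨c2, c3⟩, fun x y m hm => c4 x (hall x) y (hall y) m hm⟩
  have hpr1 : ∀ m ∈ S i, pr hM m = 1 := by
    intro m hm
    rw [← pr_one, pr_eq]
    exact rel_symm hM ⟨m, hm, (AL.mul_one' m).symm⟩
  have hcomm : ∀ X Y : QM hM, X * Y = Y * X := by
    intro X Y
    obtain ⟨x, rfl⟩ := pr_surj hM X
    obtain ⟨y, rfl⟩ := pr_surj hM Y
    obtain ⟨m, hm, e⟩ := (c5 x (hall x) y (hall y) x (hall x)).2
    rw [← pr_mul, e, pr_mul, hpr1 m hm, AL.mul_one', pr_mul]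
  have hassoc : ∀ X Y Z : QM hM, (X * Y) * Z = X * (Y * Z) := by
    intro X Y Z
    obtain ⟨x, rfl⟩ := pr_surj hM X
    obtain ⟨y, rfl⟩ := pr_surj hM Y
    obtain ⟨z, rfl⟩ := pr_surj hM Z
    obtain ⟨m, hm, e⟩ := (c5 x (hall x) y (hall y) z (hall z)).1
    rw [← pr_mul, ← pr_mul, e, pr_mul, hpr1 m hm, AL.mul_one', pr_mul, pr_mul]
  let iAdd : Add (QM hM) := ⟨fun a b => a * b⟩
  let iZero : Zero (QM hM) := ⟨1⟩
  let iNeg : Neg (QM hM) := ⟨fun a => ((AL.bijR a).2 1).choose⟩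
  let grp0 : AddGroup (QM hM) := AddGroup.ofLeftAxioms hassoc (fun a => AL.one_mul' a)
    (fun a => ((AL.bijR a).2 1).choose_spec)
  let grp : AddCommGroup (QM hM) := { grp0 with add_comm := hcomm }
  have hcard : Nat.card (QM hM) ≠ 1 := by
    intro h
    have h1 := (Nat.card_eq_one_iff_unique.1 h).1
    apply hi2
    ext x
    refine ⟨fun _ => trivial, fun _ => ?_⟩
    have h2 : pr hM 1 = pr hM x := Subsingleton.elim _ _
    rw [pr_eq] at h2
    obtain ⟨m, hm, he⟩ := h2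
    rw [he, AL.mul_one']
    exact hm
  obtain ⟨r, c, hr, X, hX⟩ := exists_hom (QM hM) hcard
  obtain ⟨x, rfl⟩ := pr_surj hM X
  refine ⟨r, fun y => c (pr hM y), hr, fun y z => ?_, x, hX⟩
  show c (pr hM (y * z)) = c (pr hM y) + c (pr hM z)
  rw [pr_mul]
  exact map_add c (pr hM y) (pr hM z)

end H675HL.HA.W237
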