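import Pool.Agent.W237.HA.Fix

/-!
HA-TRIV (helper237), project HA (helper433).
-/

set_option autoImplicit false

namespace H675HL.HA.W237

open H675HL.CharAux

theorem ais {Q : Type} (g : Equiv.Perm Q) (x : Q) : g (g⁻¹ x) = x := g.apply_symm_apply x

variable {Q X V : Type} [AL Q] [AL X] [AddCommGroup V]

/-- the automorphisms over the quotient -/
def EE (f : Q → X) : Subgroup (Equiv.Perm Q) where
  carrier := {g | IsAut g ∧ ∀ x, f (g x) = f x}
  mul_mem' := by
    rintro a b ⟨ha, ha'⟩ ⟨hb, hb'⟩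
    refine ⟨fun x y => ?_, fun x => ?_⟩
    · rw [Equiv.Perm.mul_apply, Equiv.Perm.mul_apply, Equiv.Perm.mul_apply, hb, ha]
    · rw [Equiv.Perm.mul_apply, ha', hb']
  one_mem' := ⟨fun _ _ => rfl, fun _ => rfl⟩
  inv_mem' := by
    rintro a ⟨ha, ha'⟩
    refine ⟨fun x y => ?_, fun x => ?_⟩
    · apply a.injective
      rw [ha, ais, ais, ais]
    · rw [← ha' (a⁻¹ x), ais]

theorem mem_EE (f : Q → X) (g : Equiv.Perm Q) :
    g ∈ EE f ↔ IsAut g ∧ ∀ x, f (g x) = f x := Iff.rfl

/-- the action on the kernel -/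
@[reducible] def act (f : Q → X) : MulAction (EE f) {m : Q // f m = 1} where
  smul e m := ⟨e.1 m.1, by rw [e.2.2]; exact m.2⟩
  one_smul m := Subtype.ext rfl
  mul_smul a b m := Subtype.ext rfl

theorem tTriv : T_Triv := by
  intro Q X V _ _ _ _ E p n hp hcard hmin hq g hg hgf v
  haveI : Fact p.Prime := ⟨hp⟩
  have hcardK : Nat.card {m : Q // E.pi m = 1} = p ^ n := by
    have h := E_card_fibre E (1 : Q)
    rw [E_pi_one] at h
    rw [h, hcard]
  -- `EE f` is a `p`-group
  have hpE : IsPGroup p (EE E.pi) := by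
    have h1 : ∀ {d : ℕ}, Nat.Prime d → d ∣ Nat.card (EE E.pi) → d = p := by
      intro d hd hdv
      by_contra hne
      haveI : Fact d.Prime := ⟨hd⟩
      obtain ⟨e, he⟩ := exists_prime_orderOf_dvd_card' (G := EE E.pi) d hdv
      have h2 : (e : Equiv.Perm Q) ^ d ^ 1 = 1 := by
        have h3 : e ^ d = 1 := by rw [← he]; exact pow_orderOf_eq_one e
        rw [pow_one]
        have h4 := congrArg (fun z : EE E.pi => (z : Equiv.Perm Q)) h3
        simpa using h4
      have h5 := hq d 1 e hd hne e.2.1 e.2.2 h2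
      have h6 : e = 1 := Subtype.ext h5
      rw [h6, orderOf_one] at he
      exact hd.one_lt.ne he
    have h2 : Nat.card (EE E.pi) ≠ 0 := Nat.card_pos.ne'
    exact IsPGroup.of_card (Nat.eq_prime_pow_of_unique_prime_dvd h2 h1)
  -- the fixed points in the kernel
  set M' : Set Q := {m | E.pi m = 1 ∧ ∀ e ∈ EE E.pi, e m = m} with hM'
  have hsub : H675HL.Sub M' := by
    refine ⟨⟨E_pi_one E, fun e he => aut_one' he.1⟩, ?_⟩
    rintro a ⟨ha, ha'⟩ b ⟨hb, hb'⟩
    refine ⟨by rw [E.pi_mul, ha, hb, AL.one_mul'], fun e he => ?_⟩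
    rw [he.1, ha' e he, hb' e he]
  have hinv : ∀ g : Equiv.Perm Q, IsAut g → (∀ a b, E.pi (g a) = E.pi (g b) ↔ E.pi a = E.pi b) →
      ∀ m ∈ M', g m ∈ M' := by
    rintro g hg hc m ⟨hm, hm'⟩
    refine ⟨?_, fun e he => ?_⟩
    · have h1 := (hc m 1).2 (by rw [hm, E_pi_one])
      rw [aut_one' hg, E_pi_one] at h1
      exact h1
    · have h1 : g⁻¹ * e * g ∈ EE E.pi := by
        rw [mem_EE]
        refine ⟨fun x y => ?_, fun x => ?_⟩
        · apply g.injective
          rw [hg]
          simp only [Equiv.Perm.mul_apply, ais]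
          rw [hg, he.1]
        · rw [← hc]
          have h3 : g ((g⁻¹ * e * g) x) = e (g x) := by
            simp only [Equiv.Perm.mul_apply, ais]
          rw [h3, he.2]
      have h2 := hm' _ h1
      have h3 : g ((g⁻¹ * e * g) m) = g m := by rw [h2]
      simpa only [Equiv.Perm.mul_apply, ais] using h3
  have cL : ∀ {a x y : X}, a * x = a * y → x = y := fun {a x y} h => (AL.bijL a).1 h
  have cR : ∀ {a x y : X}, x * a = y * a → x = y := fun {a x y} h => (AL.bijR a).1 h
  have hnorm : Normal M' := by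
    refine ⟨hsub, fun x y m hm => ⟨?_, ?_, ?_⟩⟩
    · refine ⟨gT x m, hinv _ (gT_aut x) (fun a b => ?_) m hm, (gT_spec x m).symm⟩
      have ha := congrArg E.pi (gT_spec x a)
      have hb := congrArg E.pi (gT_spec x b)
      rw [E.pi_mul, E.pi_mul] at ha hb
      constructor
      · intro h
        rw [h, hb] at ha
        exact (cL ha).symm
      · intro h
        rw [h, ← hb] at ha
        exact cR ha
    · refine ⟨gR x y m, hinv _ (gR_aut x y) (fun a b => ?_) m hm, (gR_spec x y m).symm⟩
      have ha := congrArg E.pi (gR_spec x y a)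
      have hb := congrArg E.pi (gR_spec x y b)
      simp only [E.pi_mul] at ha hb
      constructor
      · intro h
        rw [h, hb] at ha
        exact (cR (cR ha)).symm
      · intro h
        rw [h, ← hb] at ha
        exact cR ha
    · refine ⟨gL x y m, hinv _ (gL_aut x y) (fun a b => ?_) m hm, (gL_spec x y m).symm⟩
      have ha := congrArg E.pi (gL_spec x y a)
      have hb := congrArg E.pi (gL_spec x y b)
      simp only [E.pi_mul] at ha hb
      constructor
      · intro h
        rw [h, hb] at ha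
        exact (cL (cL ha)).symm
      · intro h
        rw [h, ← hb] at ha
        exact cL ha
  rcases hmin M' hnorm (fun m hm => hm.1) with h1 | h1
  · -- trivial kernel
    letI := act E.pi
    have h2 := hpE.card_modEq_card_fixedPoints {m : Q // E.pi m = 1}
    have h3 : Nat.card (MulAction.fixedPoints (EE E.pi) {m : Q // E.pi m = 1}) = 1 := by
      rw [Nat.card_eq_one_iff_unique]
      refine ⟨⟨fun a b => ?_⟩, ⟨⟨⟨1, E_pi_one E⟩, fun e => Subtype.ext (aut_one' e.2.1)⟩⟩⟩
      have key : ∀ a : MulAction.fixedPoints (EE E.pi) {m : Q // E.pi m = 1},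
          (a.1.1 : Q) = 1 := by
        intro a
        have h4 : (a.1.1 : Q) ∈ M' := by
          refine ⟨a.1.2, fun e he => ?_⟩
          have h5 := a.2 ⟨e, he⟩
          exact congrArg Subtype.val h5
        rw [h1] at h4
        exact h4
      exact Subtype.ext (Subtype.ext ((key a).trans (key b).symm))
    rw [h3, hcardK] at h2
    have hn : n = 0 := by
      by_contra hn
      have h4 : p ∣ p ^ n := dvd_pow_self p hn
      have h5 : p ^ n ≡ 0 [MOD p] := (Nat.modEq_zero_iff_dvd).2 h4
      have h6 : 1 ≡ 0 [MOD p] := h2.symm.trans h5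
      have h7 := (Nat.modEq_zero_iff_dvd).1 h6
      exact hp.one_lt.ne' (Nat.dvd_one.1 h7)
    rw [hn, pow_zero] at hcard
    have h8 := (Nat.card_eq_one_iff_unique.1 hcard).1
    have h9 : v = 0 := Subsingleton.elim _ _
    rw [h9, E_io_zero]
    exact aut_one' hg
  · have h2 : E.io v ∈ M' := by rw [h1]; exact E_pi_io E v
    exact h2.2 g ⟨hg, hgf⟩

end H675HL.HA.W237
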